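import Pool.Agent.Y491.GP.Pairs

/-!
# An improved bound for the 1/3-2/3 conjecture

There is an absolute constant `c > 0` such that every finite poset which is not a chain has distinct
elements `x`, `y` with `(5 - √5) / 10 + c ≤ Prob[x > y] ≤ (5 + √5) / 10 - c`.  The constant
`(5 - √5) / 10 = 0.27639...` of Brightwell, Felsner and Trotter (1995), which improved the constant
`3/11` of Kahn and Saks, was the best one known.
-/

set_option autoImplicit false

namespace Pool.Agent.Results.MP_bd7e44_co.BeyondBFT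

theorem result : ∃ c : ℝ, 0 < c ∧ ∀ (X : Type) [Fintype X] [PartialOrder X],
      (∃ a b : X, ¬ a ≤ b ∧ ¬ b ≤ a) →
      ∃ x y : X, x ≠ y ∧
        (5 - √5) / 10 + c ≤
          (({f : X ≃ Fin (Fintype.card X) | StrictMono (⇑f) ∧ f y < f x}.ncard : ℕ) : ℝ) /
            (({f : X ≃ Fin (Fintype.card X) | StrictMono (⇑f)}.ncard : ℕ) : ℝ) ∧
        (({f : X ≃ Fin (Fintype.card X) | StrictMono (⇑f) ∧ f y < f x}.ncard : ℕ) : ℝ) /
            (({f : X ≃ Fin (Fintype.card X) | StrictMono (⇑f)}.ncard : ℕ) : ℝ) ≤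
          (5 + √5) / 10 - c := by
  obtain ⟨c, hc, h⟩ := Pool.Agent.Y491.BF.beyond
  refine ⟨c, hc, fun X _ _ hX => ?_⟩
  have hne : Nonempty X := ⟨hX.choose⟩
  have h5 : √5 < 5 := by
    rw [Real.sqrt_lt' (by norm_num)]; norm_num
  obtain ⟨x, y, hxy, h2, h3⟩ := Pool.Agent.Y491.GP.pair_of_balance (by linarith) (h X hX)
  exact ⟨x, y, hxy, h2, by linarith⟩

end Pool.Agent.Results.MP_bd7e44_co.BeyondBFT
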