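import Pool.Agent.Y491.GP.Fin13

/-!
# The 1/3-2/3 conjecture up to `ε` is a finite problem

Put `N(ε) = exp (exp (exp (B log(2/ε)³ / ε⁴)))`, with an absolute constant `B`.  If every poset which
is not a chain and has at most `N(ε)` elements has distinct `x`, `y` with `s ≤ Prob[x > y] ≤ 1 - s`,
then every finite poset which is not a chain has distinct `x`, `y` with
`s - ε ≤ Prob[x > y] ≤ 1 - s + ε`.  For `s = 1/3`: the 1/3-2/3 conjecture for the posets with at most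
`N(ε)` elements implies it up to `ε` for all posets.  So the infimum of the numbers `δ(P)` can be
computed to any precision from finitely many posets.
-/

set_option autoImplicit false

namespace Pool.Agent.Results.MP_bd7e44_co.FiniteProblem

theorem result : ∃ B : ℝ, 0 < B ∧ ∀ ε s : ℝ, 0 < ε → ε < s → s ≤ 1 / 2 →
    (∀ (X : Type) [Fintype X] [PartialOrder X], (∃ a b : X, ¬ a ≤ b ∧ ¬ b ≤ a) →
      (Fintype.card X : ℝ) ≤ Real.exp (Real.exp (Real.exp (B * Real.log (2 / ε) ^ 3 / ε ^ 4))) →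
      ∃ x y : X, x ≠ y ∧
        s ≤ (({f : X ≃ Fin (Fintype.card X) | StrictMono (⇑f) ∧ f y < f x}.ncard : ℕ) : ℝ) /
            (({f : X ≃ Fin (Fintype.card X) | StrictMono (⇑f)}.ncard : ℕ) : ℝ) ∧
        (({f : X ≃ Fin (Fintype.card X) | StrictMono (⇑f) ∧ f y < f x}.ncard : ℕ) : ℝ) /
            (({f : X ≃ Fin (Fintype.card X) | StrictMono (⇑f)}.ncard : ℕ) : ℝ) ≤ 1 - s) →
    ∀ (X : Type) [Fintype X] [PartialOrder X], (∃ a b : X, ¬ a ≤ b ∧ ¬ b ≤ a) →
      ∃ x y : X, x ≠ y ∧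
        s - ε ≤ (({f : X ≃ Fin (Fintype.card X) | StrictMono (⇑f) ∧ f y < f x}.ncard : ℕ) : ℝ) /
            (({f : X ≃ Fin (Fintype.card X) | StrictMono (⇑f)}.ncard : ℕ) : ℝ) ∧
        (({f : X ≃ Fin (Fintype.card X) | StrictMono (⇑f) ∧ f y < f x}.ncard : ℕ) : ℝ) /
            (({f : X ≃ Fin (Fintype.card X) | StrictMono (⇑f)}.ncard : ℕ) : ℝ) ≤ 1 - s + ε := by
  obtain ⟨B, hB, h⟩ := Pool.Agent.Y491.GP.fin13
  refine ⟨B, hB, fun ε s hε hεs hs hfin X _ _ hX => ?_⟩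
  obtain ⟨Q, i1, i2, hQ, hc, hb⟩ := h ε hε (by linarith) X hX
  obtain ⟨x, y, hxy, h1, h2⟩ := @hfin Q i1 i2 hQ hc
  have h3 := Pool.Agent.Y491.GP.balance_of_pair hxy h1 h2
  have hne : Nonempty X := ⟨hX.choose⟩
  obtain ⟨u, v, huv, h4, h5⟩ := Pool.Agent.Y491.GP.pair_of_balance (X := X) (β := s - ε)
    (by linarith) (by linarith)
  exact ⟨u, v, huv, h4, by linarith⟩

end Pool.Agent.Results.MP_bd7e44_co.FiniteProblem
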