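import Pool.Agent.Y491.GP.Pairs

/-!
# The 1/3-2/3 conjecture for posets which are not thin

There is an absolute constant `K` such that every finite poset in which some element is incomparable
to at least `K` elements has distinct `x`, `y` with `1/3 ≤ Prob[x > y] ≤ 2/3`.  So the conjecture is
reduced to `K`-thin posets.  More precisely, for every `ε` the probability can be put in
`[1/2 - ε, 1/2 + ε]` as soon as one element is incomparable to at least `exp (B log(2/ε)³ / ε⁴)`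
elements.  Posets of large width satisfy the hypothesis (starting file `WidePosets`), but also many
posets of bounded width.
-/

set_option autoImplicit false

namespace Pool.Agent.Results.MP_bd7e44_co.ThickPosets

theorem result :
    (∃ K : ℕ, ∀ (X : Type) [Fintype X] [PartialOrder X] (a : X),
      K ≤ {b : X | ¬ a ≤ b ∧ ¬ b ≤ a}.ncard →
      ∃ x y : X, x ≠ y ∧
        (1 / 3 : ℝ) ≤
          (({f : X ≃ Fin (Fintype.card X) | StrictMono (⇑f) ∧ f y < f x}.ncard : ℕ) : ℝ) /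
            (({f : X ≃ Fin (Fintype.card X) | StrictMono (⇑f)}.ncard : ℕ) : ℝ) ∧
        (({f : X ≃ Fin (Fintype.card X) | StrictMono (⇑f) ∧ f y < f x}.ncard : ℕ) : ℝ) /
            (({f : X ≃ Fin (Fintype.card X) | StrictMono (⇑f)}.ncard : ℕ) : ℝ) ≤ (2 / 3 : ℝ)) ∧
    (∃ B : ℝ, 0 < B ∧ ∀ ε : ℝ, 0 < ε → ε < 1 / 2 →
      ∀ (X : Type) [Fintype X] [PartialOrder X] (a : X),
      Real.exp (B * Real.log (2 / ε) ^ 3 / ε ^ 4) ≤ (({b : X | ¬ a ≤ b ∧ ¬ b ≤ a}.ncard : ℕ) : ℝ) →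
      ∃ x y : X, x ≠ y ∧
        1 / 2 - ε ≤
          (({f : X ≃ Fin (Fintype.card X) | StrictMono (⇑f) ∧ f y < f x}.ncard : ℕ) : ℝ) /
            (({f : X ≃ Fin (Fintype.card X) | StrictMono (⇑f)}.ncard : ℕ) : ℝ) ∧
        (({f : X ≃ Fin (Fintype.card X) | StrictMono (⇑f) ∧ f y < f x}.ncard : ℕ) : ℝ) /
            (({f : X ≃ Fin (Fintype.card X) | StrictMono (⇑f)}.ncard : ℕ) : ℝ) ≤ 1 / 2 + ε) := by
  obtain ⟨B, hB, hID⟩ := Pool.Agent.Y491.ID.incomparable_balance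
  have main : ∀ ε : ℝ, 0 < ε → ε < 1 / 2 →
      ∀ (X : Type) [Fintype X] [PartialOrder X] (a : X),
      Real.exp (B * Real.log (2 / ε) ^ 3 / ε ^ 4) ≤ (({b : X | ¬ a ≤ b ∧ ¬ b ≤ a}.ncard : ℕ) : ℝ) →
      ∃ x y : X, x ≠ y ∧
        1 / 2 - ε ≤
          (({f : X ≃ Fin (Fintype.card X) | StrictMono (⇑f) ∧ f y < f x}.ncard : ℕ) : ℝ) /
            (({f : X ≃ Fin (Fintype.card X) | StrictMono (⇑f)}.ncard : ℕ) : ℝ) ∧
        (({f : X ≃ Fin (Fintype.card X) | StrictMono (⇑f) ∧ f y < f x}.ncard : ℕ) : ℝ) /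
            (({f : X ≃ Fin (Fintype.card X) | StrictMono (⇑f)}.ncard : ℕ) : ℝ) ≤ 1 / 2 + ε := by
    intro ε hε hε2 X _ _ a ha
    have h1 := hID ε hε hε2.le X a (by
      have : Nat.card {y : X // ¬ a ≤ y ∧ ¬ y ≤ a} = {y : X | ¬ a ≤ y ∧ ¬ y ≤ a}.ncard := by
        rw [← Nat.card_coe_set_eq]; rfl
      rw [this]
      exact ha)
    have hne : Nonempty X := ⟨a⟩
    obtain ⟨x, y, hxy, h2, h3⟩ := Pool.Agent.Y491.GP.pair_of_balance (by linarith) h1
    exact ⟨x, y, hxy, h2, by linarith⟩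
  refine ⟨?_, B, hB, main⟩
  obtain ⟨K, hK⟩ := exists_nat_ge (Real.exp (B * Real.log (2 / (1 / 6)) ^ 3 / (1 / 6) ^ 4))
  refine ⟨K, fun X _ _ a ha => ?_⟩
  obtain ⟨x, y, hxy, h2, h3⟩ := main (1 / 6) (by norm_num) (by norm_num) X a
    (hK.trans (by exact_mod_cast ha))
  exact ⟨x, y, hxy, by linarith, by linarith⟩

end Pool.Agent.Results.MP_bd7e44_co.ThickPosets
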